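import Pool.Agent.helper78.EQ.Spec
import Pool.Agent.helper13.LD.E1

set_option autoImplicit false

open Complex MeasureTheory Set Metric Filter Topology

namespace Pool.Agent.EQ

open Pool.Agent.helper6.LD

theorem helper8_ext (f : ℂ → ℂ) (c : ℂ) (r : ℝ) (hr : 0 < r)
    (hf : AnalyticOnNhd ℂ f (closedBall c r)) :
    ∃ d : ℝ, 0 < d ∧ AnalyticOnNhd ℂ f (closedBall c (r + d)) := by
  obtain ⟨d, hd, hsub⟩ := (isCompact_closedBall c r).exists_cthickening_subset_open
    (isOpen_analyticAt ℂ f) (fun z hz => hf z hz)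
  refine ⟨d, hd, fun z hz => hsub ?_⟩
  rw [cthickening_closedBall hd.le hr.le, add_comm]
  exact hz

theorem helper8_centre (f : ℂ → ℂ) (c : ℂ) (r : ℝ) (hr : 0 < r)
    (hf : AnalyticOnNhd ℂ f (closedBall c r)) (hs : ∀ z ∈ sphere c r, f z ≠ 0) (e : ℝ)
    (he : 0 < e) : ∃ c' : ℂ, dist c' c < e ∧ f c' ≠ 0 := by
  by_contra hcon
  push Not at hcon
  have hev : ∃ᶠ z in 𝓝[≠] c, f z = 0 := by
    apply Filter.Eventually.frequently
    filter_upwards [mem_nhdsWithin_of_mem_nhds (ball_mem_nhds c he)] with z hz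
    exact hcon z (mem_ball.mp hz)
  have h0 := hf.eqOn_zero_of_preconnected_of_frequently_eq_zero
    (convex_closedBall c r).isPreconnected (mem_closedBall_self hr.le) hev
  have hp : c + (r : ℂ) ∈ sphere c r := by
    simp [abs_of_pos hr]
  exact hs _ hp (h0 (sphere_subset_closedBall hp))

theorem ARG : ARG_stmt := by
  intro f c r hr hf hs hz
  obtain ⟨ρ0, hρ0, hfρ0⟩ := hz
  obtain ⟨d, hd, hfd⟩ := helper8_ext f c r hr hf
  obtain ⟨c', hc', hfc'⟩ := helper8_centre f c r hr hf hs (d / 4) (by positivity)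
  have hsub1 : closedBall c' (r + 2 * (d / 4)) ⊆ closedBall c (r + d) := by
    apply closedBall_subset_closedBall'
    linarith
  have hsub2 : closedBall c r ⊆ closedBall c' (r + d / 4) := by
    apply closedBall_subset_closedBall'
    rw [dist_comm]
    linarith
  obtain ⟨S, g, hS, hg, hfg, hg0⟩ := factor (f := f) (c := c') (R := r + d / 4)
    (R' := r + 2 * (d / 4)) (by positivity) (by linarith) (fun z hz => hfd z (hsub1 hz)) hfc'
  have hin : closedBall c r ⊆ closedBall c' (r + 2 * (d / 4)) :=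
    hsub2.trans (closedBall_subset_closedBall (by linarith))
  have hga : ∀ z ∈ closedBall c r, AnalyticAt ℂ g z := fun z hz => hg z (hin hz)
  have hgz : ∀ z ∈ closedBall c r, g z ≠ 0 := fun z hz => hg0 z (hsub2 hz)
  -- no zero on the circle
  have hne : ∀ z ∈ sphere c r, ∀ ρ ∈ S, z - ρ ≠ 0 := by
    intro z hz ρ hρ h
    have : z = ρ := sub_eq_zero.mp h
    exact hs z hz (this ▸ ((hS ρ).mp hρ).2)
  set m : ℂ → ℕ := fun ρ => analyticOrderNatAt f ρ with hm
  -- logarithmic derivative
  have hlog : ∀ z ∈ sphere c r, deriv f z / f z =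
      (∑ ρ ∈ S, (m ρ : ℂ) * (z - ρ)⁻¹) + deriv g z / g z := by
    intro z hz
    have hzc : z ∈ closedBall c r := sphere_subset_closedBall hz
    have hev : f =ᶠ[𝓝 z] fun w => (∏ ρ ∈ S, (w - ρ) ^ m ρ) * g w := by
      have hnb : closedBall c' (r + 2 * (d / 4)) ∈ 𝓝 z := by
        apply Filter.mem_of_superset (isOpen_ball.mem_nhds (x := z) (s := ball c' (r + 2 * (d / 4))) _)
          ball_subset_closedBall
        have h1 := hsub2 hzc
        rw [mem_closedBall] at h1
        rw [mem_ball]
        linarith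
      filter_upwards [hnb] with w hw
      exact hfg w hw
    have hP : ∀ ρ ∈ S, ((z - ρ) ^ m ρ) ≠ 0 := fun ρ hρ => pow_ne_zero _ (hne z hz ρ hρ)
    have hdP : ∀ ρ ∈ S, DifferentiableAt ℂ (fun w => (w - ρ) ^ m ρ) z := by
      intro ρ _; fun_prop
    have e1 : deriv f z / f z = logDeriv (fun w => (∏ ρ ∈ S, (w - ρ) ^ m ρ) * g w) z := by
      rw [logDeriv_apply, hev.deriv_eq, hev.eq_of_nhds]
    rw [e1, logDeriv_mul z (Finset.prod_ne_zero_iff.mpr hP) (hgz z hzc)
      (DifferentiableAt.fun_finsetProd hdP) (hga z hzc).differentiableAt]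
    rw [logDeriv_prod hP hdP]
    congr 1
    apply Finset.sum_congr rfl
    intro ρ _
    rw [logDeriv_fun_pow (by fun_prop)]
    congr 1
    rw [logDeriv_apply]
    simp
  -- the integrals
  have hint : ∀ ρ ∈ S, CircleIntegrable (fun z => (m ρ : ℂ) * (z - ρ)⁻¹) c r := by
    intro ρ hρ
    apply ContinuousOn.circleIntegrable hr.le
    apply ContinuousOn.mul continuousOn_const
    apply ContinuousOn.inv₀ (by fun_prop)
    intro z hz
    exact hne z hz ρ hρ
  have hdg : ∀ z ∈ closedBall c r, AnalyticAt ℂ (fun w => deriv g w / g w) z := by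
    intro z hz
    exact (hga z hz).deriv.div (hga z hz) (hgz z hz)
  have hgi : (∮ z in C(c, r), deriv g z / g z) = 0 := by
    apply DiffContOnCl.circleIntegral_eq_zero hr.le
    apply DifferentiableOn.diffContOnCl
    rw [closure_ball c hr.ne']
    exact fun z hz => (hdg z hz).differentiableAt.differentiableWithinAt
  have hgint : CircleIntegrable (fun z => deriv g z / g z) c r := by
    apply ContinuousOn.circleIntegrable hr.le
    exact fun z hz => (hdg z (sphere_subset_closedBall hz)).continuousAt.continuousWithinAt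
  have hsum : CircleIntegrable (fun z => ∑ ρ ∈ S, (m ρ : ℂ) * (z - ρ)⁻¹) c r := by
    apply ContinuousOn.circleIntegrable hr.le
    apply continuousOn_finsetSum
    intro ρ hρ
    apply ContinuousOn.mul continuousOn_const
    apply ContinuousOn.inv₀ (by fun_prop)
    intro z hz
    exact hne z hz ρ hρ
  classical
  have hone : ∀ ρ ∈ S, (∮ z in C(c, r), (m ρ : ℂ) * (z - ρ)⁻¹) =
      if ρ ∈ ball c r then 2 * (Real.pi : ℂ) * I * (m ρ : ℂ) else 0 := by
    intro ρ hρ
    rw [circleIntegral.integral_const_mul]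
    split_ifs with hb
    · rw [circleIntegral.integral_sub_inv_of_mem_ball hb]; ring
    · have hout : ∀ z ∈ closedBall c r, z - ρ ≠ 0 := by
        intro z hz h
        have hzρ : z = ρ := sub_eq_zero.mp h
        subst hzρ
        rcases lt_or_eq_of_le (mem_closedBall.mp hz) with h1 | h1
        · exact hb (mem_ball.mpr h1)
        · exact hs z (mem_sphere.mpr h1) ((hS z).mp hρ).2
      have : (∮ z in C(c, r), (z - ρ)⁻¹) = 0 := by
        apply DiffContOnCl.circleIntegral_eq_zero hr.le
        apply DifferentiableOn.diffContOnCl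
        rw [closure_ball c hr.ne']
        intro z hz
        apply DifferentiableAt.differentiableWithinAt
        exact DifferentiableAt.inv (by fun_prop) (hout z hz)
      rw [this, mul_zero]
  refine ⟨∑ ρ ∈ S with ρ ∈ ball c r, m ρ, ?_, ?_⟩
  · -- the zero ρ0 is counted
    have hρc : ρ0 ∈ closedBall c r := ball_subset_closedBall hρ0
    have h1 := hfg ρ0 (hin hρc)
    rw [hfρ0] at h1
    have h2 : ∏ ρ ∈ S, (ρ0 - ρ) ^ analyticOrderNatAt f ρ = 0 := by
      rcases mul_eq_zero.mp h1.symm with h | h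
      · exact h
      · exact absurd h (hgz ρ0 hρc)
    obtain ⟨ρ, hρ, h3⟩ := Finset.prod_eq_zero_iff.mp h2
    have h4 : ρ0 - ρ = 0 ∧ analyticOrderNatAt f ρ ≠ 0 := by
      by_cases h5 : analyticOrderNatAt f ρ = 0
      · rw [h5, pow_zero] at h3; exact absurd h3 one_ne_zero
      · exact ⟨pow_eq_zero_iff h5 |>.mp h3, h5⟩
    have h6 : ρ = ρ0 := (sub_eq_zero.mp h4.1).symm
    subst h6
    have h7 : 1 ≤ m ρ := Nat.one_le_iff_ne_zero.mpr h4.2
    refine h7.trans (Finset.single_le_sum (f := m) (fun _ _ => Nat.zero_le _) ?_)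
    exact Finset.mem_filter.mpr ⟨hρ, hρ0⟩
  · rw [circleIntegral.integral_congr hr.le hlog, circleIntegral.integral_add hsum hgint, hgi,
      add_zero, circleIntegral.integral_fun_sum hint, Finset.sum_congr rfl hone, ← Finset.sum_filter]
    push_cast
    rw [Finset.mul_sum]

end Pool.Agent.EQ
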