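import Pool.Agent.helper78.EQ.Spec

set_option autoImplicit false

open Complex MeasureTheory Set Metric Filter Topology

namespace Pool.Agent.EQ

theorem helper8_term (a : ℕ → ℂ) (ha : ∀ n : ℕ, ‖a n‖ ≤ Real.sqrt n) (t x : ℝ) (n : ℕ) :
    ‖a n * ((Real.exp (-((n : ℝ) / x)) : ℝ) : ℂ) * (n : ℂ) ^ (-((t : ℂ) * I))‖ ≤
      (n : ℝ) * Real.exp (-((n : ℝ) / x)) := by
  rcases Nat.eq_zero_or_pos n with h0 | h0
  · subst h0
    have h1 := ha 0
    simp only [Nat.cast_zero, Real.sqrt_zero] at h1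
    have h2 : a 0 = 0 := norm_le_zero_iff.mp h1
    simp [h2]
  · rw [norm_mul, norm_mul, Complex.norm_natCast_cpow_of_pos h0]
    have hre : (-((t : ℂ) * I)).re = 0 := by simp
    rw [hre, Real.rpow_zero, mul_one]
    have hn1 : (1 : ℝ) ≤ n := by exact_mod_cast h0
    have h3 : Real.sqrt n ≤ n := by
      rw [Real.sqrt_le_left (by positivity)]
      nlinarith
    have h4 : ‖((Real.exp (-((n : ℝ) / x)) : ℝ) : ℂ)‖ = Real.exp (-((n : ℝ) / x)) := by
      rw [Complex.norm_real, Real.norm_eq_abs, abs_of_pos (Real.exp_pos _)]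
    rw [h4]
    exact mul_le_mul_of_nonneg_right ((ha n).trans h3) (Real.exp_pos _).le

theorem helper8_summ (r : ℝ) (hr : 0 < r) :
    Summable (fun n : ℕ => (n : ℝ) * Real.exp (-r * n)) := by
  have := Real.summable_pow_mul_exp_neg_nat_mul 1 hr
  simpa using this

theorem helper8_expmono (N x : ℝ) (hx : 0 < x) (hxN : x ≤ N) (n : ℕ) :
    (n : ℝ) * Real.exp (-((n : ℝ) / x)) ≤ (n : ℝ) * Real.exp (-(1 / N) * n) := by
  apply mul_le_mul_of_nonneg_left _ (Nat.cast_nonneg n)
  apply Real.exp_le_exp.mpr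
  have : (n : ℝ) / N ≤ (n : ℝ) / x := div_le_div_of_nonneg_left (Nat.cast_nonneg n) hx hxN
  have e : -(1 / N) * (n : ℝ) = -((n : ℝ) / N) := by ring
  rw [e]
  linarith

theorem helper8_bound (a : ℕ → ℂ) (ha : ∀ n : ℕ, ‖a n‖ ≤ Real.sqrt n) (t N x : ℝ) (hx : 0 < x)
    (hxN : x ≤ N) : ‖S a x t‖ ≤ ∑' n : ℕ, (n : ℝ) * Real.exp (-(1 / N) * n) := by
  have hN : 0 < N := hx.trans_le hxN
  apply tsum_of_norm_bounded (helper8_summ (1 / N) (by positivity)).hasSum
  intro n
  exact (helper8_term a ha t x n).trans (helper8_expmono N x hx hxN n)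

/-- the constant `∑ n e^(1-n)` -/
noncomputable def helper8_K0 : ℝ := ∑' n : ℕ, (n : ℝ) * Real.exp (-1 * n) * Real.exp 1

theorem helper8_K0_nonneg : 0 ≤ helper8_K0 := tsum_nonneg fun n => by positivity

theorem helper8_small (a : ℕ → ℂ) (ha : ∀ n : ℕ, ‖a n‖ ≤ Real.sqrt n) (t x : ℝ) (hx : 0 < x)
    (hx1 : x ≤ 1) : ‖S a x t‖ ≤ helper8_K0 * Real.exp (-(1 / x)) := by
  have hs : Summable (fun n : ℕ => (n : ℝ) * Real.exp (-1 * n) * Real.exp 1) :=
    (helper8_summ 1 one_pos).mul_right _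
  apply tsum_of_norm_bounded (hs.hasSum.mul_right (Real.exp (-(1 / x))))
  intro n
  refine (helper8_term a ha t x n).trans ?_
  rcases Nat.eq_zero_or_pos n with h0 | h0
  · subst h0; simp
  · have hn1 : (1 : ℝ) ≤ n := by exact_mod_cast h0
    have h1x : 1 ≤ 1 / x := by rw [le_div_iff₀ hx]; linarith
    rw [mul_assoc, mul_assoc, ← Real.exp_add, ← Real.exp_add]
    apply mul_le_mul_of_nonneg_left _ (by positivity)
    apply Real.exp_le_exp.mpr
    have e : (n : ℝ) / x = n * (1 / x) := by ring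
    rw [e]
    nlinarith [mul_nonneg (sub_nonneg.mpr hn1) (sub_nonneg.mpr h1x)]

theorem helper8_exppow (x : ℝ) (hx : 0 < x) (k : ℕ) :
    Real.exp (-(1 / x)) ≤ (k.factorial : ℝ) * x ^ k := by
  have h1 := Real.pow_div_factorial_le_exp (1 / x) (by positivity) k
  have hf : (0 : ℝ) < k.factorial := by exact_mod_cast k.factorial_pos
  rw [Real.exp_neg]
  have h2 : (0 : ℝ) < (1 / x) ^ k / k.factorial := by positivity
  calc (Real.exp (1 / x))⁻¹ ≤ ((1 / x) ^ k / k.factorial)⁻¹ := inv_anti₀ h2 h1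
    _ = (k.factorial : ℝ) * x ^ k := by
        rw [inv_div, one_div, inv_pow, div_inv_eq_mul]

theorem helper8_cont (a : ℕ → ℂ) (ha : ∀ n : ℕ, ‖a n‖ ≤ Real.sqrt n) (t N : ℝ) (hN : 0 < N) :
    ContinuousOn (fun x => S a x t) (Ioc 0 N) := by
  unfold S
  apply continuousOn_tsum (u := fun n : ℕ => (n : ℝ) * Real.exp (-(1 / N) * n))
  · intro n
    apply ContinuousOn.mul
    · apply ContinuousOn.mul continuousOn_const
      apply Complex.continuous_ofReal.comp_continuousOn
      apply Real.continuous_exp.comp_continuousOn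
      apply ContinuousOn.neg
      apply ContinuousOn.div continuousOn_const continuousOn_id
      intro x hx
      exact hx.1.ne'
    · exact continuousOn_const
  · exact helper8_summ (1 / N) (by positivity)
  · intro n x hx
    exact (helper8_term a ha t x n).trans (helper8_expmono N x hx.1 hx.2 n)

theorem helper8_int (a : ℕ → ℂ) (ha : ∀ n : ℕ, ‖a n‖ ≤ Real.sqrt n) (t N : ℝ) (hN : 0 < N) :
    IntegrableOn (fun x => S a x t) (Ioc 0 N) := by
  refine Integrable.mono' (g := fun _ => ∑' n : ℕ, (n : ℝ) * Real.exp (-(1 / N) * n)) ?_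
    ((helper8_cont a ha t N hN).aestronglyMeasurable measurableSet_Ioc) ?_
  · exact integrable_const _
  · filter_upwards [ae_restrict_mem measurableSet_Ioc] with x hx
    exact helper8_bound a ha t N x hx.1 hx.2

theorem helper8_diff (a : ℕ → ℂ) (ha : ∀ n : ℕ, ‖a n‖ ≤ Real.sqrt n) (t N : ℝ) (hN : 0 < N) :
    Differentiable ℂ (Gf a N t) := by
  set F : ℝ → ℂ := indicator (Ioc 0 N) (fun x => S a x t) with hF
  have hmel : Gf a N t = fun w => mellin F (-w) := by
    funext w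
    unfold Gf mellin
    have e : (fun x : ℝ => (x : ℂ) ^ (-w - 1) • F x) =
        indicator (Ioc 0 N) (fun x => S a x t * (x : ℂ) ^ (-w - 1)) := by
      funext x
      by_cases hx : x ∈ Ioc 0 N
      · rw [hF, indicator_of_mem hx, indicator_of_mem hx, smul_eq_mul, mul_comm]
      · rw [hF, indicator_of_notMem hx, indicator_of_notMem hx, smul_zero]
    rw [e, setIntegral_indicator measurableSet_Ioc]
    congr 2
    ext x
    simp only [mem_inter_iff, mem_Ioi, mem_Ioc]
    tauto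
  rw [hmel]
  intro w
  have hF1 : Integrable F := (integrable_indicator_iff measurableSet_Ioc).mpr (helper8_int a ha t N hN)
  have hloc : LocallyIntegrableOn F (Ioi 0) := hF1.locallyIntegrable.locallyIntegrableOn _
  have htop : F =O[atTop] (fun x : ℝ => x ^ (-((-w).re + 1))) := by
    apply Asymptotics.IsBigO.of_bound 1
    filter_upwards [eventually_gt_atTop N] with x hx
    have : x ∉ Ioc 0 N := fun h => absurd h.2 (not_le.mpr hx)
    rw [hF, indicator_of_notMem this, norm_zero]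
    positivity
  have hbot : F =O[𝓝[>] 0] (fun x : ℝ => x ^ (-((-w).re - 1))) := by
    set b : ℝ := (-w).re - 1 with hb
    set k : ℕ := ⌈-b⌉₊ with hk
    apply Asymptotics.IsBigO.of_bound (helper8_K0 * k.factorial)
    have hev : ∀ᶠ x : ℝ in 𝓝[>] 0, x ∈ Ioc (0 : ℝ) (min 1 N) :=
      Ioc_mem_nhdsGT (lt_min one_pos hN)
    filter_upwards [hev] with x hx
    have hx1 : x ≤ 1 := hx.2.trans (min_le_left _ _)
    have hxN : x ≤ N := hx.2.trans (min_le_right _ _)
    have hmem : x ∈ Ioc (0 : ℝ) N := ⟨hx.1, hxN⟩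
    rw [hF, indicator_of_mem hmem]
    have h1 := helper8_small a ha t x hx.1 hx1
    have h2 := helper8_exppow x hx.1 k
    have h3 : x ^ k ≤ x ^ (-b) := by
      rw [← Real.rpow_natCast]
      exact Real.rpow_le_rpow_of_exponent_ge hx.1 hx1 (Nat.le_ceil _)
    have h4 : ‖x ^ (-b)‖ = x ^ (-b) := by
      rw [Real.norm_eq_abs, abs_of_nonneg (Real.rpow_nonneg hx.1.le _)]
    rw [h4]
    calc ‖S a x t‖ ≤ helper8_K0 * Real.exp (-(1 / x)) := h1
      _ ≤ helper8_K0 * ((k.factorial : ℝ) * x ^ k) :=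
          mul_le_mul_of_nonneg_left h2 helper8_K0_nonneg
      _ ≤ helper8_K0 * ((k.factorial : ℝ) * x ^ (-b)) := by
          apply mul_le_mul_of_nonneg_left _ helper8_K0_nonneg
          exact mul_le_mul_of_nonneg_left h3 (by positivity)
      _ = helper8_K0 * k.factorial * x ^ (-b) := by ring
  have hd := mellin_differentiableAt_of_isBigO_rpow (s := -w) hloc htop (by linarith) hbot
    (by linarith)
  exact hd.comp w differentiableAt_id.neg

theorem GFA : GFA_stmt := by
  refine ⟨helper8_K0 * 5040 + 1, by have := helper8_K0_nonneg; positivity, ?_⟩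
  intro a N t ha hN
  have hN0 : 0 < N := by linarith
  refine ⟨helper8_diff a ha t N hN0, ?_⟩
  intro σ δ V w hσ hδ hV hS hw1 hw2
  have hsplit : Ioc (0 : ℝ) N = Ioc 0 1 ∪ Ioc 1 N := (Ioc_union_Ioc_eq_Ioc zero_le_one hN).symm
  have hdisj : Disjoint (Ioc (0 : ℝ) 1) (Ioc 1 N) := by
    rw [Set.disjoint_left]
    intro x hx hx2
    exact absurd hx.2 (not_le.mpr hx2.1)
  set G : ℝ → ℂ := fun x => S a x t * (x : ℂ) ^ (-w - 1) with hG
  have hnorm : ∀ x : ℝ, 0 < x → ‖(x : ℂ) ^ (-w - 1)‖ = x ^ (-w.re - 1) := by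
    intro x hx
    rw [Complex.norm_cpow_eq_rpow_re_of_pos hx]
    simp
  have hcont : ContinuousOn G (Ioc 0 N) := by
    apply (helper8_cont a ha t N hN0).mul
    intro x hx
    apply ContinuousAt.continuousWithinAt
    apply Complex.continuousAt_ofReal_cpow_const
    right
    exact hx.1.ne'
  -- bounds
  have hb1 : ∀ x ∈ Ioc (0 : ℝ) 1, ‖G x‖ ≤ helper8_K0 * 5040 := by
    intro x hx
    rw [hG, norm_mul, hnorm x hx.1]
    have h1 := helper8_small a ha t x hx.1 hx.2
    have h2 := helper8_exppow x hx.1 7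
    have h3 : x ^ (-w.re - 1) ≤ x ^ (-(7 : ℝ)) :=
      Real.rpow_le_rpow_of_exponent_ge hx.1 hx.2 (by linarith)
    have h4 : (x : ℝ) ^ (-(7 : ℝ)) = (x ^ 7)⁻¹ := by
      rw [Real.rpow_neg hx.1.le]
      congr 1
      exact_mod_cast Real.rpow_natCast x 7
    have hx7 : 0 < x ^ 7 := pow_pos hx.1 7
    calc ‖S a x t‖ * x ^ (-w.re - 1)
        ≤ (helper8_K0 * Real.exp (-(1 / x))) * (x ^ 7)⁻¹ := by
          apply mul_le_mul h1 (h3.trans_eq h4) (Real.rpow_nonneg hx.1.le _)
          exact mul_nonneg helper8_K0_nonneg (Real.exp_pos _).le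
      _ ≤ (helper8_K0 * (((7 : ℕ).factorial : ℝ) * x ^ 7)) * (x ^ 7)⁻¹ := by
          apply mul_le_mul_of_nonneg_right _ (by positivity)
          exact mul_le_mul_of_nonneg_left h2 helper8_K0_nonneg
      _ = helper8_K0 * 5040 := by
          have : ((7 : ℕ).factorial : ℝ) = 5040 := by norm_num [Nat.factorial]
          rw [this, mul_assoc, mul_assoc, mul_inv_cancel₀ hx7.ne', mul_one]
  have hb2 : ∀ x ∈ Ioc (1 : ℝ) N, ‖G x‖ ≤ V * x ^ (-δ - 1) := by
    intro x hx
    have hx0 : 0 < x := by linarith [hx.1]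
    rw [hG, norm_mul, hnorm x hx0]
    have h1 := hS x hx.1.le hx.2
    have h2 : x ^ σ * x ^ (-w.re - 1) ≤ x ^ (-δ - 1) := by
      rw [← Real.rpow_add hx0]
      exact Real.rpow_le_rpow_of_exponent_le hx.1.le (by linarith)
    calc ‖S a x t‖ * x ^ (-w.re - 1) ≤ (x ^ σ * V) * x ^ (-w.re - 1) :=
          mul_le_mul_of_nonneg_right h1 (Real.rpow_nonneg hx0.le _)
      _ = V * (x ^ σ * x ^ (-w.re - 1)) := by ring
      _ ≤ V * x ^ (-δ - 1) := mul_le_mul_of_nonneg_left h2 hV
  have hi1 : IntegrableOn G (Ioc 0 1) := by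
    refine Integrable.mono' (g := fun _ => helper8_K0 * 5040) ?_
      ((hcont.mono (Ioc_subset_Ioc_right hN)).aestronglyMeasurable measurableSet_Ioc) ?_
    · exact integrable_const _
    · filter_upwards [ae_restrict_mem measurableSet_Ioc] with x hx
      exact hb1 x hx
  have hrp : IntervalIntegrable (fun x : ℝ => x ^ (-δ - 1)) volume 1 N := by
    apply intervalIntegral.intervalIntegrable_rpow
    right
    rw [uIcc_of_le hN]
    intro h
    linarith [h.1]
  have hrp2 : IntegrableOn (fun x : ℝ => V * x ^ (-δ - 1)) (Ioc 1 N) :=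
    ((intervalIntegrable_iff_integrableOn_Ioc_of_le hN).mp hrp).const_mul V
  have hi2 : IntegrableOn G (Ioc 1 N) := by
    apply Integrable.mono' hrp2
    · exact (hcont.mono (Ioc_subset_Ioc_left zero_le_one)).aestronglyMeasurable measurableSet_Ioc
    · filter_upwards [ae_restrict_mem measurableSet_Ioc] with x hx
      exact hb2 x hx
  have e0 : Gf a N t w = (∫ x in Ioc (0 : ℝ) 1, G x) + ∫ x in Ioc (1 : ℝ) N, G x := by
    unfold Gf
    rw [hsplit, setIntegral_union hdisj measurableSet_Ioc hi1 hi2]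
  have e1 : ‖∫ x in Ioc (0 : ℝ) 1, G x‖ ≤ helper8_K0 * 5040 := by
    have := norm_setIntegral_le_of_norm_le_const (μ := volume) (s := Ioc (0 : ℝ) 1)
      (C := helper8_K0 * 5040) (f := G) (by simp) hb1
    simpa using this
  have e2 : ‖∫ x in Ioc (1 : ℝ) N, G x‖ ≤ V / δ := by
    have h1 : ‖∫ x in Ioc (1 : ℝ) N, G x‖ ≤ ∫ x in Ioc (1 : ℝ) N, V * x ^ (-δ - 1) := by
      apply norm_integral_le_of_norm_le hrp2
      filter_upwards [ae_restrict_mem measurableSet_Ioc] with x hx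
      exact hb2 x hx
    refine h1.trans ?_
    rw [← intervalIntegral.integral_of_le hN, intervalIntegral.integral_const_mul]
    have h2 : ∫ x in (1 : ℝ)..N, x ^ (-δ - 1) = (N ^ (-δ - 1 + 1) - 1 ^ (-δ - 1 + 1)) / (-δ - 1 + 1) := by
      apply integral_rpow
      right
      refine ⟨by linarith, ?_⟩
      rw [uIcc_of_le hN]
      intro h
      linarith [h.1]
    rw [h2, Real.one_rpow]
    have h3 : 0 ≤ N ^ (-δ - 1 + 1) := Real.rpow_nonneg hN0.le _
    have h4 : (N ^ (-δ - 1 + 1) - 1) / (-δ - 1 + 1) ≤ 1 / δ := by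
      have e : (N ^ (-δ - 1 + 1) - 1) / (-δ - 1 + 1) = (1 - N ^ (-δ - 1 + 1)) / δ := by
        have : -δ - 1 + 1 ≠ 0 := by
          intro h; linarith
        field_simp
        ring
      rw [e]
      apply div_le_div_of_nonneg_right _ hδ.le
      linarith
    calc V * ((N ^ (-δ - 1 + 1) - 1) / (-δ - 1 + 1)) ≤ V * (1 / δ) :=
          mul_le_mul_of_nonneg_left h4 hV
      _ = V / δ := by ring
  rw [e0]
  refine (norm_add_le _ _).trans ?_
  linarith

end Pool.Agent.EQ
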